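import Pool.Agent.H79.PRK.S6
import Pool.Agent.H71.T1.TWFK
import Pool.Agent.H29.T1.POSb

/-!
# PRK: FINZ

For `g = 1` a curve with trivial 2-Selmer group has finitely many points.
-/

set_option autoImplicit false
set_option linter.unusedSectionVars false

namespace Pool.PRK

open Polynomial Matrix Pool.HYP Pool.TOW Pool.AVS Pool.T1 IsDedekindDomain

namespace FinzAux

/-- If the Selmer group has one element, every class is trivial. -/
theorem selK_of_ncard {K : Type} [Field K] {f : K[X]}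
    (hs : (SelG f).ncard = 1) : SelK f := by
  intro p hp hN hL
  obtain ⟨ξ, hξ⟩ := Set.ncard_eq_one.1 hs
  have hu : IsUnit (AdjoinRoot.mk f p) := by
    obtain ⟨a, b, hab⟩ := hp
    have h1 := congrArg (AdjoinRoot.mk f) hab
    rw [map_add, map_mul, map_mul, AdjoinRoot.mk_self, mul_zero, add_zero, map_one] at h1
    exact IsUnit.of_mul_eq_one _ (by rw [mul_comm]; exact h1)
  have h1 : (QuotientGroup.mk (1 : (AdjoinRoot f)ˣ) : (AdjoinRoot f)ˣ ⧸ SqG f) ∈ SelG f := by
    refine ⟨1, 1, rfl, by simp, ?_, ?_⟩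
    · unfold NSq
      rw [map_one, map_one]
      exact ⟨1, by simp⟩
    · intro L _ O ι _
      refine ⟨1, 0, 1, monic_one, isCoprime_one_left, one_dvd _, ?_⟩
      simp
  have h2 : (QuotientGroup.mk hu.unit : (AdjoinRoot f)ˣ ⧸ SqG f) ∈ SelG f :=
    ⟨hu.unit, p, rfl, rfl, hN, fun L _ O ι hC => hL L O ι hC⟩
  rw [hξ] at h1 h2
  have h3 : (QuotientGroup.mk hu.unit : (AdjoinRoot f)ˣ ⧸ SqG f) =
      QuotientGroup.mk (1 : (AdjoinRoot f)ˣ) := by
    rw [Set.mem_singleton_iff.1 h1, Set.mem_singleton_iff.1 h2]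
  have h4 : hu.unit ∈ SqG f := (QuotientGroup.eq_one_iff _).1 h3
  obtain ⟨v, hv⟩ := h4
  obtain ⟨s, hs⟩ := AdjoinRoot.mk_surjective (g := f) (v : AdjoinRoot f)
  refine ⟨s, ?_⟩
  rw [← AdjoinRoot.mk_eq_zero, map_sub, map_pow, hs, sub_eq_zero]
  have h5 := congrArg Units.val hv
  simp only [powMonoidHom_apply, Units.val_pow_eq_pow_val, IsUnit.unit_spec] at h5
  exact h5.symm

/-- A monic polynomial of degree three. -/
theorem cubic_eq {K : Type} [Field K] {f : K[X]} (hm : f.Monic) (hn : f.natDegree = 3) :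
    f = X ^ 3 + C (f.coeff 2) * X ^ 2 + C (f.coeff 1) * X + C (f.coeff 0) := by
  have h3 : f.coeff 3 = 1 := by
    rw [← hn]
    exact hm.coeff_natDegree
  conv_lhs => rw [f.as_sum_range_C_mul_X_pow, hn]
  simp only [Finset.sum_range_succ, Finset.range_zero, Finset.sum_empty, h3, C_1, one_mul,
    pow_zero, mul_one, pow_one, zero_add]
  ring

end FinzAux

open FinzAux

theorem finz : FINZStmt := by
  intro hDIV hFIN hGRD hIRR R _ _ K _ _ _ O π H hU D h hD f hf d hd hS
  obtain ⟨hfi, hfs⟩ := hIRR R K O π H 1 D h le_rfl hD f hf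
  have hirr := irr_scale hd hf.1.1 hfi
  obtain ⟨n, -, -, -, hn4⟩ := hGRD R K O π H d hd
  have hAS := twfk R K O π H 1 h n f d ⟨hf.1, hfs⟩ hd ((hn4 n).2 le_rfl)
  have hFm : (fk K (f.scaleRoots d)).Monic := hAS.1.1.map _
  have hFn : (fk K (f.scaleRoots d)).natDegree = 3 := by
    rw [fk, hAS.1.1.natDegree_map, hAS.1.2.1]
  have hFs : (fk K (f.scaleRoots d)).Separable := hAS.2
  have hsel := selK_of_ncard hS
  generalize fk K (f.scaleRoots d) = F at *
  have hF := cubic_eq hFm hFn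
  generalize F.coeff 2 = a at hF
  generalize F.coeff 1 = b at hF
  generalize F.coeff 0 = c at hF
  subst hF
  have key := hFIN R K O π H (fun m => (hU m).1) (fun r hr => by
    obtain ⟨m, h1, h2, h3, -⟩ := hGRD R K O π H r hr
    exact ⟨m, h3, h1, h2⟩) a b c hFs (hDIV K H.two a b c hirr hsel)
  refine key.subset ?_
  intro p hp
  have hp' : p.2 ^ 2 = (X ^ 3 + C a * X ^ 2 + C b * X + C c : K[X]).eval p.1 := hp
  simpa using hp'

end Pool.PRK
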