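import Pool.Agent.H5.PRK.S3

/-!
# PRK: GCTK

Counting in finite commutative groups.
-/

set_option autoImplicit false
set_option linter.unusedSectionVars false

namespace Pool.PRK

namespace GctkAux

open scoped symmDiff

variable {ι C : Type} [CommGroup C]

open Classical in
theorem prod_mul_prod (S T : Finset ι) (g : ι → C) :
    (∏ i ∈ S, g i) * ∏ i ∈ T, g i = (∏ i ∈ S ∆ T, g i) * (∏ i ∈ S ∩ T, g i) ^ 2 := by
  have h1 : S ∪ T = (S ∆ T) ∪ (S ∩ T) := by
    ext x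
    simp only [Finset.mem_union, Finset.mem_symmDiff, Finset.mem_inter]
    tauto
  have h2 : Disjoint (S ∆ T) (S ∩ T) := by
    rw [Finset.disjoint_left]
    intro x hx hx'
    simp only [Finset.mem_symmDiff, Finset.mem_inter] at hx hx'
    tauto
  rw [← Finset.prod_union_inter, h1, Finset.prod_union h2, pow_two, mul_assoc]

end GctkAux

open GctkAux

theorem gctk : GCTKStmt := by
  classical
  intro C D _ _ _ _ N e m he ι _ g h hgh
  have : Fintype C := Fintype.ofFinite C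
  have : Fintype D := Fintype.ofFinite D
  -- the set `W`
  set W : Finset (C × D) := Finset.univ.filter (fun w : C × D => N w.1 = w.2 ^ 2) with hW
  have hmem : ∀ w : C × D, w ∈ W ↔ N w.1 = w.2 ^ 2 := fun w => by simp [hW]
  have hnorm : ∀ w ∈ W, ∃ c : C, N c = w.2 := by
    intro w hw
    refine ⟨e w.2 * (w.1 ^ m)⁻¹, ?_⟩
    rw [map_mul, he, map_inv, map_pow, (hmem w).1 hw, ← pow_mul, pow_succ, mul_comm (w.2 ^ (2 * m)),
      mul_assoc, mul_inv_cancel, mul_one]
  choose! s hs using (fun (b : D) (hb : ∃ c : C, N c = b) => hb)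
  have hWcard : W.card ≤ Fintype.card C := by
    rw [← Finset.card_univ]
    refine Finset.card_le_card_of_injOn (fun w => w.1 * (s w.2)⁻¹) (fun _ _ => Finset.mem_univ _) ?_
    intro w hw w' hw' heq
    have hw1 := Finset.mem_coe.1 hw
    have hw2 := Finset.mem_coe.1 hw'
    have e1 : ∀ v ∈ W, N (v.1 * (s v.2)⁻¹) = v.2 := by
      intro v hv
      rw [map_mul, map_inv, hs v.2 (hnorm v hv), (hmem v).1 hv, pow_two, mul_assoc,
        mul_inv_cancel, mul_one]
    have h2 : w.2 = w'.2 := by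
      rw [← e1 w hw1, ← e1 w' hw2]
      exact congrArg N heq
    have h1 : w.1 = w'.1 := by
      have heq' : w.1 * (s w.2)⁻¹ = w'.1 * (s w'.2)⁻¹ := heq
      rw [h2] at heq'
      exact mul_right_cancel heq'
    exact Prod.ext h1 h2
  -- the map
  set Φ : Finset ι × C → C × D :=
    fun q => (q.2 ^ 2 * ∏ i ∈ q.1, g i, N q.2 * ∏ i ∈ q.1, h i) with hΦ
  have hΦW : ∀ q, Φ q ∈ W := by
    intro q
    rw [hmem]
    simp only [hΦ]
    rw [map_mul, map_pow, map_prod, Finset.prod_congr rfl (fun i _ => hgh i), Finset.prod_pow,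
      mul_pow]
  have hWne : W.Nonempty := ⟨1, by simp [hW]⟩
  obtain ⟨w, hw, hcard⟩ := Finset.exists_le_card_fiber_of_mul_le_card_of_maps_to
    (s := (Finset.univ : Finset (Finset ι × C))) (t := W) (f := Φ)
    (n := 2 ^ Fintype.card ι) (fun q _ => hΦW q) hWne (by
      rw [Finset.card_univ, Fintype.card_prod, Fintype.card_finset, mul_comm]
      exact Nat.mul_le_mul_left _ hWcard)
  refine hcard.trans ?_
  have hpos : 0 < (Finset.univ.filter fun q : Finset ι × C => Φ q = w).card :=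
    lt_of_lt_of_le (by positivity) hcard
  obtain ⟨⟨S₀, c₀⟩, hq⟩ := Finset.card_pos.1 hpos
  have hq0 : Φ (S₀, c₀) = w := (Finset.mem_filter.1 hq).2
  have hq1 : c₀ ^ 2 * ∏ i ∈ S₀, g i = w.1 := congrArg Prod.fst hq0
  have hq2 : N c₀ * ∏ i ∈ S₀, h i = w.2 := congrArg Prod.snd hq0
  have hNw : N w.1 = w.2 ^ 2 := (hmem w).1 hw
  rw [Nat.card_eq_fintype_card, Fintype.card_subtype]
  refine Finset.card_le_card_of_injOn
    (fun q => (symmDiff q.1 S₀, q.2 * c₀ * w.1⁻¹ * ∏ i ∈ q.1 ∩ S₀, g i)) ?_ ?_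
  · rintro ⟨S, c⟩ hSc
    have hSc0 : Φ (S, c) = w := (Finset.mem_filter.1 (Finset.mem_coe.1 hSc)).2
    have h1 : c ^ 2 * ∏ i ∈ S, g i = w.1 := congrArg Prod.fst hSc0
    have h2 : N c * ∏ i ∈ S, h i = w.2 := congrArg Prod.snd hSc0
    have hg := prod_mul_prod S S₀ g
    have hh := prod_mul_prod S S₀ h
    simp only [Finset.coe_filter, Finset.mem_univ, true_and, Set.mem_ofPred_eq]
    constructor
    · have e1 : (c * c₀ * w.1⁻¹ * ∏ i ∈ S ∩ S₀, g i) ^ 2 * ∏ i ∈ symmDiff S S₀, g i =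
          (c ^ 2 * ∏ i ∈ S, g i) * (c₀ ^ 2 * ∏ i ∈ S₀, g i) * (w.1⁻¹) ^ 2 := by
        calc _ = c ^ 2 * c₀ ^ 2 * (w.1⁻¹) ^ 2 *
              ((∏ i ∈ symmDiff S S₀, g i) * (∏ i ∈ S ∩ S₀, g i) ^ 2) := by
              simp only [mul_pow]
              ac_rfl
          _ = _ := by
              rw [← hg]
              ac_rfl
      rw [e1, h1, hq1, ← pow_two, inv_pow, mul_inv_cancel]
    · have e1 : N (c * c₀ * w.1⁻¹ * ∏ i ∈ S ∩ S₀, g i) * ∏ i ∈ symmDiff S S₀, h i =
          (N c * ∏ i ∈ S, h i) * (N c₀ * ∏ i ∈ S₀, h i) * (w.2 ^ 2)⁻¹ := by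
        rw [map_mul, map_mul, map_mul, map_inv, hNw, map_prod,
          Finset.prod_congr rfl (fun i _ => hgh i), Finset.prod_pow]
        calc _ = N c * N c₀ * (w.2 ^ 2)⁻¹ *
              ((∏ i ∈ symmDiff S S₀, h i) * (∏ i ∈ S ∩ S₀, h i) ^ 2) := by
              ac_rfl
          _ = _ := by
              rw [← hh]
              ac_rfl
      rw [e1, h2, hq2, ← pow_two, mul_inv_cancel]
  · rintro ⟨S, c⟩ _ ⟨S', c'⟩ _ heq
    have heq1 : symmDiff S S₀ = symmDiff S' S₀ := congrArg Prod.fst heq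
    have heq2 : c * c₀ * w.1⁻¹ * ∏ i ∈ S ∩ S₀, g i = c' * c₀ * w.1⁻¹ * ∏ i ∈ S' ∩ S₀, g i :=
      congrArg Prod.snd heq
    have hS : S = S' := symmDiff_left_injective _ heq1
    subst hS
    rw [mul_left_inj, mul_left_inj, mul_left_inj] at heq2
    rw [heq2]

end Pool.PRK
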