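import Pool.Agent.H72.PRK.S2
import Pool.Agent.H52.T1.LDBK

/-!
# PRK: LT2K

The converse of LDBK, from TW2C.
-/

set_option autoImplicit false
set_option linter.unusedSectionVars false

namespace Pool.PRK

open Polynomial Pool.HYP Pool.TOW Pool.AVS Pool.T1 IsDedekindDomain

theorem lt2k (hT : TW2CStmt) : LT2KStmt := by
  intro R _ _ K _ _ _ P ϖ L _ O' ι HC g f d α c γ x hg hf hn hγ hfL hPd hPd2 hα hN hx hx2
  have hfK : (fk K f).Monic := hf.map _
  have hmap : (fk K (f.scaleRoots d)).map ι =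
      (oL O' ((X - C c) * γ)).scaleRoots (ι (algebraMap R K d)) := by
    rw [← hfL, fk, Polynomial.map_scaleRoots _ _ _
        (by rw [hf.leadingCoeff, map_one]; exact one_ne_zero),
      Polynomial.map_scaleRoots _ _ _ (by rw [hfK.leadingCoeff, map_one]; exact one_ne_zero)]
  have hUI := LdbkAux.uniformizer HC hPd hPd2
  have hα' : IsCoprime (α.map ι) (oL O' ((X - C c) * γ)) := by
    rw [← hfL]
    exact hα.map (mapRingHom ι)
  have hN' : NSq (oL O' ((X - C c) * γ)) (α.map ι) := by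
    rw [← hfL, NSq, nmu.2.2.2 K L ι (fk K f) α hfK]
    exact hN.map ι
  obtain ⟨u, w, s, hu, huf, hud, hs⟩ := hT L O' (ι (algebraMap R K ϖ)) HC.loc HC.cpl.complete g c
    γ hg hγ (ι (algebraMap R K d)) hUI (α.map ι) x hα' hN' hx hx2
  refine ⟨u, w, s, hu, ?_, ?_, ?_⟩
  · rw [hmap]
    exact huf
  · rw [hmap]
    exact hud
  · rw [hfL]
    exact hs

end Pool.PRK
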